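import Pool.Agent.H176.DT.Stm5
import Pool.Agent.H176.DT.B16
import Pool.Agent.H176.DT.G2

/-!
# Stages over etale extensions which are defined over the base field (project DT, part four)

Adaptation of `Pool/Agent/H624/DT/Unr.lean` (helper624).
-/

set_option autoImplicit false
set_option linter.unusedVariables false
set_option linter.unusedSectionVars false

universe u

namespace Pool.Agent.Y212.DT5

open Pool.Agent.W418.LU2 Pool.Agent.H176.DT Pool.Agent.H624.DT IsLocalRing Polynomial

section general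

variable {F : Type u} [Field F] {ι : Type} [Fintype ι]

/-- The matrices of inverse substitutions. -/
lemma inv_mat [DecidableEq ι] {V : ValuationSubring F} {x x' : ι → F} (hx : ∀ i, x i ≠ 0)
    (hind : ∀ δ : ι → ℤ, V.valuation (mo x δ) = 1 → δ = 0) {δ a : ι → ι → ℤ}
    (hδ : ∀ j, x' j = mo x (δ j)) (ha : ∀ i, x i = mo x' (a i)) :
    (Matrix.of δ) * (Matrix.of a) = 1 := by
  have h1 : (Matrix.of a) * (Matrix.of δ) = 1 := by
    ext i l
    have h2 : mo x (∑ j, a i j • δ j - Pi.single i 1) = 1 := by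
      rw [sub_eq_add_neg, mo_add hx, ← mo_comp hx hδ, ← ha, mo_neg, mo_single]
      exact mul_inv_cancel₀ (hx i)
    have h3 := hind _ (by rw [h2, map_one])
    have h4 := congrFun h3 l
    rw [Pi.sub_apply, Pi.zero_apply, sub_eq_zero, Finset.sum_apply] at h4
    rw [Matrix.mul_apply]
    simp only [Matrix.of_apply]
    rw [Matrix.one_apply]
    simp only [Pi.smul_apply, smul_eq_mul] at h4
    rw [h4, Pi.single_apply]
    by_cases h5 : i = l
    · rw [if_pos h5, if_pos h5.symm]
    · rw [if_neg h5, if_neg fun h => h5 h.symm]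
  exact mul_eq_one_comm.1 h1

/-- Substitutions preserve the independence of the values. -/
lemma ind_subst {V : ValuationSubring F} {x x' : ι → F} (hx : ∀ i, x i ≠ 0)
    (hind : ∀ δ : ι → ℤ, V.valuation (mo x δ) = 1 → δ = 0) {δ a : ι → ι → ℤ}
    (hδ : ∀ j, x' j = mo x (δ j)) (ha : ∀ i, x i = mo x' (a i)) (c : ι → ℤ)
    (hc : V.valuation (mo x' c) = 1) : c = 0 := by
  classical
  rw [mo_comp hx hδ] at hc
  have h1 := hind _ hc
  have h2 : Matrix.vecMul c (Matrix.of δ) = 0 := by
    funext l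
    have h3 := congrFun h1 l
    rw [Finset.sum_apply] at h3
    rw [Matrix.vecMul, dotProduct]
    exact h3
  have h4 := inv_mat hx hind hδ ha
  have h5 : Matrix.vecMul (Matrix.vecMul c (Matrix.of δ)) (Matrix.of a) = c := by
    rw [Matrix.vecMul_vecMul, h4, Matrix.vecMul_one]
  rw [← h5, h2, Matrix.zero_vecMul]

end general

section up

variable {E F : Type u} [Field E] [Field F] [Algebra E F] (V : ValuationSubring F)

lemma map_mo {s : ℕ} (x : Fin s → E) (δ : Fin s → ℤ) :
    algebraMap E F (mo x δ) = mo (fun i => algebraMap E F (x i)) δ := by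
  unfold mo
  rw [map_prod]
  exact Finset.prod_congr rfl fun i _ => map_zpow₀ _ _ _

/-- The stage over the extension. -/
theorem up (A : Subring E) (hMod : Mod (V.comap (algebraMap E F)) A) (η : F) (hη : η ∈ V)
    (hgen : ∀ z : F, ∃ f : E[X], aeval η f = z) (μ g h : E[X]) (hu : Unr V η μ g h)
    {TE : Set E} {s : ℕ} {x : Fin s → E} (hSt : St (V.comap (algebraMap E F)) A TE x)
    (hx : ∀ i, (x i)⁻¹ ∉ V.comap (algebraMap E F))
    (c1 : ∀ i, μ.coeff i ∈ PP (V.comap (algebraMap E F)) A TE)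
    (c2 : ∀ i, g.coeff i ∈ PP (V.comap (algebraMap E F)) A TE)
    (c3 : ∀ i, h.coeff i ∈ PP (V.comap (algebraMap E F)) A TE) :
    St V (Subring.closure ((A.map (algebraMap E F) : Set F) ∪ {η}))
      ((algebraMap E F) '' TE) (fun i => algebraMap E F (x i)) ∧
    (∀ e ∈ PP (V.comap (algebraMap E F)) A TE, algebraMap E F e ∈
      PP V (Subring.closure ((A.map (algebraMap E F) : Set F) ∪ {η})) ((algebraMap E F) '' TE)) ∧
    ∀ e, PMon (PP (V.comap (algebraMap E F)) A TE) x e →
      PMon (PP V (Subring.closure ((A.map (algebraMap E F) : Set F) ∪ {η}))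
        ((algebraMap E F) '' TE)) (fun i => algebraMap E F (x i)) (algebraMap E F e) := by
  have hBV : Subring.closure ((A : Set E) ∪ TE) ≤ (V.comap (algebraMap E F)).toSubring :=
    (le_lo _ _).trans hSt.reg.PA
  have hS := stage V p_ext p_map p_adj p_cut p_alg (Subring.closure ((A : Set E) ∪ TE)) hBV (by
    intro a
    obtain ⟨b, hb, c, hc, hc0, rfl⟩ := hMod.2 a
    refine ⟨c, Subring.subset_closure (Or.inl hc), hc0, ?_⟩
    rw [mul_assoc, inv_mul_cancel₀ hc0, mul_one]
    exact Subring.subset_closure (Or.inl hb)) η hη hgen μ g h hu x hSt.reg hx c1 c2 c3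
  have hcl : Subring.closure (((Subring.closure ((A : Set E) ∪ TE)).map (algebraMap E F) : Set F) ∪
      Set.range (fun _ : Unit => η)) = Subring.closure
        ((Subring.closure ((A.map (algebraMap E F) : Set F) ∪ {η}) : Set F) ∪
          (algebraMap E F) '' TE) := by
    apply le_antisymm
    · rw [Subring.closure_le]
      rintro w (hw | ⟨_, rfl⟩)
      · have h9 : (Subring.closure ((A : Set E) ∪ TE)).map (algebraMap E F) ≤ Subring.closure
            ((Subring.closure ((A.map (algebraMap E F) : Set F) ∪ {η}) : Set F) ∪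
              (algebraMap E F) '' TE) := by
          rw [RingHom.map_closure, Subring.closure_le]
          rintro _ ⟨e, he | he, rfl⟩
          · exact Subring.subset_closure (Or.inl (Subring.subset_closure (Or.inl ⟨e, he, rfl⟩)))
          · exact Subring.subset_closure (Or.inr ⟨e, he, rfl⟩)
        exact h9 hw
      · exact Subring.subset_closure (Or.inl (Subring.subset_closure (Or.inr rfl)))
    · rw [Subring.closure_le]
      rintro w (hw | ⟨e, he, rfl⟩)
      · have h9 : Subring.closure ((A.map (algebraMap E F) : Set F) ∪ {η}) ≤ Subring.closure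
            (((Subring.closure ((A : Set E) ∪ TE)).map (algebraMap E F) : Set F) ∪
              Set.range (fun _ : Unit => η)) := by
          rw [Subring.closure_le]
          rintro w (⟨e, he, rfl⟩ | hw)
          · exact Subring.subset_closure (Or.inl ⟨e, Subring.subset_closure (Or.inl he), rfl⟩)
          · exact Subring.subset_closure (Or.inr ⟨(), (Set.mem_singleton_iff.1 hw).symm⟩)
        exact h9 hw
      · exact Subring.subset_closure (Or.inl ⟨e, Subring.subset_closure (Or.inr he), rfl⟩)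
  rw [hcl] at hS
  have hPS : ∀ e ∈ PP (V.comap (algebraMap E F)) A TE, algebraMap E F e ∈
      PP V (Subring.closure ((A.map (algebraMap E F) : Set F) ∪ {η})) ((algebraMap E F) '' TE) := by
    rintro _ ⟨a, ha, b, hb, hb0, hbA, rfl⟩
    have hin : ∀ c ∈ Subring.closure ((A : Set E) ∪ TE), algebraMap E F c ∈ Subring.closure
        ((Subring.closure ((A.map (algebraMap E F) : Set F) ∪ {η}) : Set F) ∪
          (algebraMap E F) '' TE) := by
      intro c hc
      rw [← hcl]
      exact Subring.subset_closure (Or.inl ⟨c, hc, rfl⟩)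
    refine ⟨_, hin a ha, _, hin b hb, (_root_.map_ne_zero _).2 hb0, ?_, ?_⟩
    · rw [← map_inv₀]
      exact hbA
    · rw [map_mul, map_inv₀]
  have hPM : ∀ e, PMon (PP (V.comap (algebraMap E F)) A TE) x e →
      PMon (PP V (Subring.closure ((A.map (algebraMap E F) : Set F) ∪ {η}))
        ((algebraMap E F) '' TE)) (fun i => algebraMap E F (x i)) (algebraMap E F e) := by
    rintro _ ⟨u, u0, u1, u2, δ, rfl⟩
    refine ⟨algebraMap E F u, (_root_.map_ne_zero _).2 u0, hPS _ u1, ?_, δ, ?_⟩
    · rw [← map_inv₀]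
      exact hPS _ u2
    · rw [map_mul, map_mo]
  refine ⟨⟨hSt.fin.image _, hS, ?_⟩, hPS, hPM⟩
  obtain ⟨β, hβ, hβm, hβT, hβx⟩ := hSt.den
  have hin : ∀ a ∈ A, algebraMap E F a ∈
      Subring.closure ((A.map (algebraMap E F) : Set F) ∪ {η}) := fun a ha =>
    Subring.subset_closure (Or.inl ⟨a, ha, rfl⟩)
  refine ⟨algebraMap E F β, hin _ hβ, hPM _ hβm, ?_, fun i => ?_⟩
  · rintro _ ⟨t, ht, rfl⟩
    rw [← map_mul]
    exact hin _ (hβT t ht)
  · rw [← map_mul]
    exact hin _ (hβx i)

end up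

/-- Stages over unramified extensions which are defined over the base field. -/
theorem et : S5_et.{u} := by
  classical
  intro E F _ _ _ V A hMod hSU η hgen μ g h hu G hG hG0
  obtain ⟨hμ, hg, hμV, hgV, hhV, hdV, hημ, hηg, hηh, hmin⟩ := id hu
  have hη : η ∈ V := int_mem V η μ hμ hμV hημ
  have key : ∀ g' : F, g' ≠ 0 → ∃ (f : E[X]) (d : E) (q : E[X]), d ≠ 0 ∧
      aeval η f = algebraMap E F d * g' ∧ (∀ i, algebraMap E F (f.coeff i) ∈ V) ∧
      (∀ i, algebraMap E F (q.coeff i) ∈ V) ∧ q.coeff 0 ≠ 0 ∧ aeval (aeval η f) q = 0 := by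
    intro g' hg'
    obtain ⟨f, hf⟩ := hgen g'
    obtain ⟨d, hd, hdf⟩ := dens V f
    have h9 : aeval η (C d * f) = algebraMap E F d * g' := by
      rw [map_mul, aeval_C, hf]
    have h10 : ∀ i, algebraMap E F ((C d * f).coeff i) ∈ V := by
      intro i
      rw [coeff_C_mul]
      exact hdf i
    obtain ⟨q, hq1, hq2, hq3⟩ := cofac V η μ hμ hμV hημ (C d * f) h10 (by
      rw [h9]
      exact mul_ne_zero ((_root_.map_ne_zero _).2 hd) hg')
    exact ⟨C d * f, d, q, hd, h9, h10, hq1, hq2, hq3⟩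
  choose! f d q hd hf hfV hqV hq0 hq using key
  let Φ : Set E[X] := {μ, g, h} ∪ (f '' G ∪ ((fun g' => C (d g')) '' G ∪ q '' G))
  have hΦ : Φ.Finite := (Set.toFinite _).union ((hG.image _).union ((hG.image _).union (hG.image _)))
  let GE : Set E := {e | e ≠ 0 ∧ ∃ p ∈ Φ, e ∈ p.coeffs}
  have hGEf : GE.Finite := by
    refine (hΦ.biUnion fun p _ => p.coeffs.finite_toSet).subset ?_
    rintro e ⟨-, p, hp, he⟩
    exact Set.mem_biUnion hp he
  obtain ⟨TE, s, x, hSt, hx, hind, hGE⟩ := p_ind (V.comap (algebraMap E F)) A hSU GE hGEf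
    fun e he => he.1
  have hcm : ∀ p ∈ Φ, ∀ i, p.coeff i ≠ 0 → PMon (PP (V.comap (algebraMap E F)) A TE) x
      (p.coeff i) ∧ (p.coeff i ∈ V.comap (algebraMap E F) →
        p.coeff i ∈ PP (V.comap (algebraMap E F)) A TE) := fun p hp i h0 =>
    hGE _ ⟨h0, p, hp, coeff_mem_coeffs h0⟩
  have hcP : ∀ p ∈ Φ, (∀ i, algebraMap E F (p.coeff i) ∈ V) → ∀ i, p.coeff i ∈
      PP (V.comap (algebraMap E F)) A TE := by
    intro p hp hV i
    by_cases h0 : p.coeff i = 0
    · rw [h0]
      exact Subring.zero_mem _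
    · exact (hcm p hp i h0).2 (hV i)
  have c1 := hcP μ (Or.inl (Or.inl rfl)) hμV
  have c2 := hcP g (Or.inl (Or.inr (Or.inl rfl))) hgV
  have c3 := hcP h (Or.inl (Or.inr (Or.inr rfl))) hhV
  obtain ⟨hSt', hPS, hPM⟩ := up V A hMod η hη hgen μ g h hu hSt hx c1 c2 c3
  have hS := hSt'.reg
  have hηP : η ∈ PP V (Subring.closure ((A.map (algebraMap E F) : Set F) ∪ {η}))
      ((algebraMap E F) '' TE) :=
    le_lo _ _ (Subring.subset_closure (Or.inl (Subring.subset_closure (Or.inr rfl))))
  have hGM : ∀ g' ∈ G, PMon (PP V (Subring.closure ((A.map (algebraMap E F) : Set F) ∪ {η}))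
        ((algebraMap E F) '' TE)) (fun i => algebraMap E F (x i)) g' := by
    intro g' hg'
    have h0 := hG0 g' hg'
    have e1 : f g' ∈ Φ := Or.inr (Or.inl ⟨g', hg', rfl⟩)
    have e2 : C (d g') ∈ Φ := Or.inr (Or.inr (Or.inl ⟨g', hg', rfl⟩))
    have e3 : q g' ∈ Φ := Or.inr (Or.inr (Or.inr ⟨g', hg', rfl⟩))
    have m1 := hPM _ (hcm _ e3 0 (hq0 g' h0)).1
    have m2 := hcm _ e2 0
    rw [coeff_C_zero] at m2
    have m3 := hPM _ (m2 (hd g' h0)).1
    have z1 : aeval η (f g') ∈ PP V (Subring.closure ((A.map (algebraMap E F) : Set F) ∪ {η}))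
        ((algebraMap E F) '' TE) :=
      aev_mem hηP fun i => hPS _ (hcP _ e1 (hfV g' h0) i)
    have z2 : aeval (aeval η (f g')) (divX (q g')) ∈
        PP V (Subring.closure ((A.map (algebraMap E F) : Set F) ∪ {η})) ((algebraMap E F) '' TE) :=
      aev_mem z1 fun i => by
        rw [coeff_divX]
        exact hPS _ (hcP _ e3 (hqV g' h0) _)
    have z3 : aeval η (f g') * aeval (aeval η (f g')) (divX (q g')) =
        (-1) * algebraMap E F ((q g').coeff 0) := by
      have h9 := hq g' h0
      rw [← divX_mul_X_add (q g'), map_add, map_mul, aeval_X, aeval_C] at h9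
      linear_combination h9
    have z4 : PMon (PP V (Subring.closure ((A.map (algebraMap E F) : Set F) ∪ {η}))
        ((algebraMap E F) '' TE)) (fun i => algebraMap E F (x i)) (-1) := by
      refine ⟨-1, neg_ne_zero.2 one_ne_zero, Subring.neg_mem _ (Subring.one_mem _), ?_, 0, ?_⟩
      · rw [inv_neg, inv_one]
        exact Subring.neg_mem _ (Subring.one_mem _)
      · rw [mo_zero, mul_one]
    have z5 := p_fac hS _ _ z1 z2 (by
      rw [z3]
      exact z4.mul hS.ne m1)
    rw [hf g' h0] at z5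
    have z6 := m3.inv.mul hS.ne z5
    rwa [inv_mul_cancel_left₀ ((_root_.map_ne_zero _).2 (hd g' h0))] at z6
  -- the monomials
  choose! w hw0 hw1 hw2 δ hwδ using hGM
  have hx0 := hSt.reg.ne
  obtain ⟨T', x', hTT', hSt2, href, hδ', hmon', hmem'⟩ := p_ref (V.comap (algebraMap E F)) A TE x
    hSt ((fun g' => mo x (δ g')) '' G) (hG.image _) (by
      rintro _ ⟨g', hg', rfl⟩
      exact ⟨1, one_ne_zero, Subring.one_mem _, by rw [inv_one]; exact Subring.one_mem _, δ g',
        by rw [one_mul]⟩)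
  choose D hD using hδ'
  have ha : ∀ i, ∃ a : Fin s → ℤ, x i = mo x' a := by
    intro i
    obtain ⟨a, -, ha1⟩ := href (Pi.single i 1) (by
      intro j
      rw [Pi.single_apply]
      split_ifs <;> simp)
    exact ⟨a, by rw [← ha1, mo_single]⟩
  choose a ha using ha
  have hind' : ∀ c : Fin s → ℤ, (V.comap (algebraMap E F)).valuation (mo x' c) = 1 → c = 0 :=
    fun c hc => ind_subst hx0 hind hD ha c hc
  have hreg' := hSt2.reg
  have hx' : ∀ i, (x' i)⁻¹ ∉ V.comap (algebraMap E F) := by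
    intro j hj
    have h1 : (V.comap (algebraMap E F)).valuation (x' j) = 1 := by
      apply le_antisymm
      · exact ((V.comap (algebraMap E F)).valuation_le_one_iff _).2 (hreg'.PA (hreg'.mem j))
      · have h2 := ((V.comap (algebraMap E F)).valuation_le_one_iff _).2 hj
        rw [map_inv₀] at h2
        exact (inv_le_one₀ (zero_lt_iff.2 ((_root_.map_ne_zero _).2 (hreg'.ne j)))).1 h2
    have h2 := hind' (Pi.single j 1) (by rw [mo_single]; exact h1)
    have h3 := congrFun h2 j
    rw [Pi.single_eq_same, Pi.zero_apply] at h3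
    exact one_ne_zero h3
  have hmono : PP (V.comap (algebraMap E F)) A TE ≤ PP (V.comap (algebraMap E F)) A T' :=
    lo_mono (Subring.closure_mono (Set.union_subset_union_right _ hTT'))
  obtain ⟨hSt3, hPS', hPM'⟩ := up V A hMod η hη hgen μ g h hu hSt2 hx' (fun i => hmono (c1 i))
    (fun i => hmono (c2 i)) (fun i => hmono (c3 i))
  have hmonoF : PP V (Subring.closure ((A.map (algebraMap E F) : Set F) ∪ {η}))
      ((algebraMap E F) '' TE) ≤ PP V (Subring.closure ((A.map (algebraMap E F) : Set F) ∪ {η}))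
      ((algebraMap E F) '' T') :=
    lo_mono (Subring.closure_mono (Set.union_subset_union_right _ (Set.image_mono hTT')))
  refine ⟨T', s, x', hSt2, hx', hind', hSt3, fun z hz => ?_⟩
  have e1 : z = w z * algebraMap E F (mo x (δ z)) := by
    rw [map_mo]
    exact hwδ z hz
  have e2 : PMon (PP (V.comap (algebraMap E F)) A TE) x (mo x (δ z)) :=
    ⟨1, one_ne_zero, Subring.one_mem _, by rw [inv_one]; exact Subring.one_mem _, δ z,
      by rw [one_mul]⟩
  refine ⟨?_, fun hzV => ?_⟩
  · obtain ⟨v, v0, v1, v2, c, hc⟩ := hPM' _ (hmon' _ e2)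
    refine ⟨w z * v, mul_ne_zero (hw0 z hz) v0, Subring.mul_mem _ (hmonoF (hw1 z hz)) v1, ?_, c, ?_⟩
    · rw [mul_inv]
      exact Subring.mul_mem _ (hmonoF (hw2 z hz)) v2
    · rw [mul_assoc, ← hc]
      exact e1
  · have h1 : algebraMap E F (mo x (δ z)) ∈ V := by
      have h2 : algebraMap E F (mo x (δ z)) = (w z)⁻¹ * z := by
        rw [eq_inv_mul_iff_mul_eq₀ (hw0 z hz)]
        exact e1.symm
      rw [h2]
      exact V.mul_mem _ _ (hS.PA (hw2 z hz)) hzV
    have h3 : mo x (δ z) ∈ PP (V.comap (algebraMap E F)) A T' := hmem' _ ⟨z, hz, rfl⟩ h1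
    rw [e1]
    exact Subring.mul_mem _ (hmonoF (hw1 z hz)) (hPS' _ h3)

end Pool.Agent.Y212.DT5
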